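import Mathlib

/-!
# Local factors and their products (project TP, piece SER)
-/

set_option autoImplicit false

namespace Pool.Agent.E8helper92.TP

open Finset

lemma pow6 (u : ℝ) : (1 - u) ^ 6 = 1 - 6 * u + (15 * u ^ 2 - 20 * u ^ 3 + 15 * u ^ 4 - 6 * u ^ 5 + u ^ 6) := by
  ring

lemma E_bounds {u : ℝ} (h0 : 0 ≤ u) (h1 : u ≤ 1 / 2) :
    0 ≤ 15 * u ^ 2 - 20 * u ^ 3 + 15 * u ^ 4 - 6 * u ^ 5 + u ^ 6 ∧
    15 * u ^ 2 - 20 * u ^ 3 + 15 * u ^ 4 - 6 * u ^ 5 + u ^ 6 ≤ 31 * u ^ 2 := by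
  have h2 : 0 ≤ u ^ 2 := by positivity
  have h3 : 0 ≤ u ^ 3 := by positivity
  have h4 : 0 ≤ u ^ 4 := by positivity
  have h5 : 0 ≤ u ^ 5 := by positivity
  have h6 : 0 ≤ u ^ 6 := by positivity
  have e1 : u ^ 3 ≤ u ^ 2 / 2 := by nlinarith
  have e2 : u ^ 4 ≤ u ^ 3 / 2 := by nlinarith
  have e3 : u ^ 5 ≤ u ^ 4 / 2 := by nlinarith
  have e4 : u ^ 6 ≤ u ^ 5 / 2 := by nlinarith
  constructor <;> linarith

lemma D_low {u : ℝ} (h1 : u ≤ 1 / 2) : 1 / 64 ≤ (1 - u) ^ 6 := by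
  have h2 : (1 / 2 : ℝ) ≤ 1 - u := by linarith
  have h3 := pow_le_pow_left₀ (by norm_num) h2 6
  norm_num at h3 ⊢
  linarith

/-- general bound for the local factor -/
lemma loc_abs {u w B : ℝ} (h0 : 0 ≤ u) (h1 : u ≤ 1 / 2) (hw : w ≤ 6 * u) (hB : 6 * u - w + 31 * u ^ 2 ≤ B) :
    |(1 - w) / (1 - u) ^ 6 - 1| ≤ 64 * B := by
  obtain ⟨e1, e2⟩ := E_bounds h0 h1
  have hD := D_low h1
  have hD0 : 0 < (1 - u) ^ 6 := by linarith
  have e3 : (1 - w) / (1 - u) ^ 6 - 1 = (1 - w - (1 - u) ^ 6) / (1 - u) ^ 6 := by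
    rw [sub_div (1 - w), div_self hD0.ne']
  rw [e3, abs_div, abs_of_pos hD0, div_le_iff₀ hD0]
  have e4 : |1 - w - (1 - u) ^ 6| ≤ B := by
    rw [pow6, abs_le]
    constructor <;> linarith
  have hB0 : 0 ≤ B := (abs_nonneg _).trans e4
  calc |1 - w - (1 - u) ^ 6| ≤ B := e4
    _ = 64 * B * (1 / 64) := by ring
    _ ≤ 64 * B * (1 - u) ^ 6 := mul_le_mul_of_nonneg_left hD (by linarith)

lemma loc_up {u w K : ℝ} (h0 : 0 ≤ u) (h1 : u ≤ 1 / 2) (hw : 1 - w ≤ 1 + K) :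
    (1 - w) / (1 - u) ^ 6 ≤ Real.exp (K + (6 * u + 12 * u ^ 2)) := by
  have hD := D_low h1
  have hD0 : 0 < (1 - u) ^ 6 := by linarith
  rw [div_le_iff₀ hD0]
  have h2 : 1 ≤ Real.exp (u + 2 * u ^ 2) * (1 - u) := by
    have h3 := Real.add_one_le_exp (u + 2 * u ^ 2)
    have h4 : 0 ≤ u ^ 2 := by positivity
    calc (1 : ℝ) ≤ (u + 2 * u ^ 2 + 1) * (1 - u) := by nlinarith
      _ ≤ _ := mul_le_mul_of_nonneg_right h3 (by linarith)
  have h5 : 1 ≤ Real.exp (6 * u + 12 * u ^ 2) * (1 - u) ^ 6 := by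
    have h6 := one_le_pow₀ h2 (n := 6)
    rw [mul_pow, ← Real.exp_nat_mul] at h6
    have e : ((6 : ℕ) : ℝ) * (u + 2 * u ^ 2) = 6 * u + 12 * u ^ 2 := by push_cast; ring
    rwa [e] at h6
  have h7 : 1 + K ≤ Real.exp K := by
    have := Real.add_one_le_exp K
    linarith
  rw [Real.exp_add, mul_assoc]
  calc 1 - w ≤ Real.exp K := hw.trans h7
    _ = Real.exp K * 1 := by ring
    _ ≤ _ := mul_le_mul_of_nonneg_left h5 (Real.exp_pos _).le

/-- the properties of the numbers of classes -/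
structure Sys (h : ℕ) (B : ℕ → ℕ) : Prop where
  up : ∀ p, p.Prime → B p ≤ 6 * p
  sq : ∀ p, B p ≤ p ^ 2
  low2 : ∀ p, p.Prime → 2 * p ≤ B p + 4
  low6 : ∀ p, p.Prime → ¬ p ∣ 2 * h → 6 * p ≤ B p + 36

noncomputable def lf (B : ℕ → ℕ) (p : ℕ) : ℝ := (1 - (B p : ℝ) / (p : ℝ) ^ 2) / (1 - 1 / (p : ℝ)) ^ 6

lemma lf_nonneg {h : ℕ} {B : ℕ → ℕ} (hB : Sys h B) {p : ℕ} (hp : p.Prime) : 0 ≤ lf B p := by
  have hp2 : (2 : ℝ) ≤ p := by exact_mod_cast hp.two_le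
  have hp0 : (0 : ℝ) < p := by linarith
  unfold lf
  refine div_nonneg ?_ (by positivity)
  rw [sub_nonneg, div_le_one (by positivity)]
  exact_mod_cast hB.sq p

lemma lf_prelim {p : ℕ} (hp : p.Prime) : 0 ≤ 1 / (p : ℝ) ∧ 1 / (p : ℝ) ≤ 1 / 2 := by
  have hp2 : (2 : ℝ) ≤ p := by exact_mod_cast hp.two_le
  exact ⟨by positivity, one_div_le_one_div_of_le (by norm_num) hp2⟩

lemma lf_w {h : ℕ} {B : ℕ → ℕ} (hB : Sys h B) {p : ℕ} (hp : p.Prime) :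
    (B p : ℝ) / (p : ℝ) ^ 2 ≤ 6 * (1 / p) ∧ 2 * (1 / (p : ℝ)) - 4 * (1 / (p : ℝ)) ^ 2 ≤ (B p : ℝ) / (p : ℝ) ^ 2 ∧
    (¬ p ∣ 2 * h → 6 * (1 / (p : ℝ)) - 36 * (1 / (p : ℝ)) ^ 2 ≤ (B p : ℝ) / (p : ℝ) ^ 2) := by
  have hp2 : (2 : ℝ) ≤ p := by exact_mod_cast hp.two_le
  have hp0 : (0 : ℝ) < p := by linarith
  have h1 : (B p : ℝ) ≤ 6 * p := by exact_mod_cast hB.up p hp
  have h2 : (2 * p : ℝ) ≤ B p + 4 := by exact_mod_cast hB.low2 p hp
  refine ⟨?_, ?_, ?_⟩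
  · rw [div_le_iff₀ (by positivity)]
    have : 6 * (1 / (p : ℝ)) * (p : ℝ) ^ 2 = 6 * p := by field_simp
    linarith
  · rw [le_div_iff₀ (by positivity)]
    have : (2 * (1 / (p : ℝ)) - 4 * (1 / (p : ℝ)) ^ 2) * (p : ℝ) ^ 2 = 2 * p - 4 := by field_simp
    linarith
  · intro hd
    have h3 : (6 * p : ℝ) ≤ B p + 36 := by exact_mod_cast hB.low6 p hp hd
    rw [le_div_iff₀ (by positivity)]
    have : (6 * (1 / (p : ℝ)) - 36 * (1 / (p : ℝ)) ^ 2) * (p : ℝ) ^ 2 = 6 * p - 36 := by field_simp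
    linarith

lemma lf_abs {h : ℕ} {B : ℕ → ℕ} (hB : Sys h B) {p : ℕ} (hp : p.Prime) :
    |lf B p - 1| ≤ 4288 * (1 / (p : ℝ) ^ 2) + (if p ∣ 2 * h then 1408 * (1 / (p : ℝ)) else 0) := by
  obtain ⟨h0, h1⟩ := lf_prelim hp
  obtain ⟨w1, w2, w3⟩ := lf_w hB hp
  set u := 1 / (p : ℝ) with hu
  have e : 1 / (p : ℝ) ^ 2 = u ^ 2 := by rw [hu, one_div_pow]
  rw [e]
  have hu2 : 0 ≤ u ^ 2 := by positivity
  unfold lf
  rw [← hu]
  split_ifs with hd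
  · have hwn : 0 ≤ (B p : ℝ) / (p : ℝ) ^ 2 := by positivity
    have := loc_abs h0 h1 w1 (B := 22 * u) (by nlinarith)
    linarith
  · have := loc_abs h0 h1 w1 (B := 67 * u ^ 2) (by have := w3 hd; linarith)
    linarith

lemma lf_up {h : ℕ} {B : ℕ → ℕ} (hB : Sys h B) {p : ℕ} (hp : p.Prime) :
    lf B p ≤ Real.exp (48 * (1 / (p : ℝ) ^ 2) + (if p ∣ 2 * h then 4 * (1 / (p : ℝ)) else 0)) := by
  obtain ⟨h0, h1⟩ := lf_prelim hp
  obtain ⟨w1, w2, w3⟩ := lf_w hB hp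
  set u := 1 / (p : ℝ) with hu
  have e : 1 / (p : ℝ) ^ 2 = u ^ 2 := by rw [hu, one_div_pow]
  rw [e]
  have hu2 : 0 ≤ u ^ 2 := by positivity
  unfold lf
  rw [← hu]
  split_ifs with hd
  · refine (loc_up h0 h1 (K := -2 * u + 4 * u ^ 2) (by linarith)).trans (Real.exp_le_exp.2 ?_)
    linarith
  · refine (loc_up h0 h1 (K := -6 * u + 36 * u ^ 2) (by have := w3 hd; linarith)).trans
      (Real.exp_le_exp.2 ?_)
    linarith

lemma sum_inv_sq (z : ℕ) : ∑ n ∈ Icc 1 z, 1 / (n : ℝ) ^ 2 ≤ 2 := by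
  have h : ∀ z : ℕ, 1 ≤ z → ∑ n ∈ Icc 1 z, 1 / (n : ℝ) ^ 2 ≤ 2 - 1 / (z : ℝ) := by
    intro z hz
    induction z, hz using Nat.le_induction with
    | base => norm_num
    | succ z hz ih =>
      rw [sum_Icc_succ_top (by omega)]
      have hz0 : (0 : ℝ) < z := by exact_mod_cast hz
      have h2 : 1 / (((z + 1 : ℕ) : ℝ)) ^ 2 ≤ 1 / z - 1 / ((z + 1 : ℕ) : ℝ) := by
        push_cast
        rw [div_sub_div _ _ hz0.ne' (by positivity), div_le_div_iff₀ (by positivity) (by positivity)]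
        nlinarith
      linarith
  rcases Nat.eq_zero_or_pos z with h0 | h0
  · rw [h0]; simp
  · have := h z h0
    have h1 : 0 ≤ 1 / (z : ℝ) := by positivity
    linarith

lemma tail_sq (z z' : ℕ) (hz : 0 < z) (hzz : z ≤ z') : ∑ n ∈ Ioc z z', 1 / (n : ℝ) ^ 2 ≤ 1 / (z : ℝ) := by
  have key : ∑ n ∈ Ioc z z', 1 / (n : ℝ) ^ 2 ≤ 1 / (z : ℝ) - 1 / (z' : ℝ) := by
    have hz0 : (0 : ℝ) < z := by exact_mod_cast hz
    induction z', hzz using Nat.le_induction with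
    | base => simp
    | succ w hw ih =>
      rw [sum_Ioc_succ_top (by omega)]
      have hw0 : (0 : ℝ) < w := lt_of_lt_of_le hz0 (by exact_mod_cast hw)
      have h2 : 1 / (((w + 1 : ℕ) : ℝ)) ^ 2 ≤ 1 / w - 1 / ((w + 1 : ℕ) : ℝ) := by
        push_cast
        rw [div_sub_div _ _ hw0.ne' (by positivity), div_le_div_iff₀ (by positivity) (by positivity)]
        nlinarith
      linarith
  have : 0 ≤ 1 / (z' : ℝ) := by positivity
  linarith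

/-- number of prime divisors -/
lemma card_T {h : ℕ} (hh : 1 ≤ h) : ((2 * h).primeFactors.card : ℝ) ≤ 2 * (1 + Real.log h) := by
  have h1 : 2 ^ (2 * h).primeFactors.card ≤ 2 * h := by
    calc 2 ^ (2 * h).primeFactors.card = ∏ _p ∈ (2 * h).primeFactors, 2 := by rw [prod_const]
      _ ≤ ∏ p ∈ (2 * h).primeFactors, p := prod_le_prod' fun p hp => (Nat.prime_of_mem_primeFactors hp).two_le
      _ ≤ 2 * h := Nat.le_of_dvd (by omega) (Nat.prod_primeFactors_dvd _)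
  set m := (2 * h).primeFactors.card with hm
  have h2 : (2 : ℝ) ^ m ≤ 2 * h := by exact_mod_cast h1
  have hh0 : (1 : ℝ) ≤ h := by exact_mod_cast hh
  have h3 := Real.log_le_log (by positivity) h2
  rw [Real.log_pow, Real.log_mul (by norm_num) (by positivity)] at h3
  have h4 : (0.6931471803 : ℝ) < Real.log 2 := Real.log_two_gt_d9
  have h5 : Real.log 2 < 0.6931471808 := Real.log_two_lt_d9
  have h6 : 0 ≤ Real.log h := Real.log_nonneg hh0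
  have h7 : 0 ≤ (m : ℝ) := Nat.cast_nonneg _
  nlinarith

/-- the sum of the reciprocals of the prime divisors -/
lemma sum_T {h : ℕ} (hh : 1 ≤ h) : ∑ p ∈ (2 * h).primeFactors, 1 / (p : ℝ) ≤ 3 + Real.log (1 + Real.log h) := by
  have hh0 : (1 : ℝ) ≤ h := by exact_mod_cast hh
  have h6 : 0 ≤ Real.log h := Real.log_nonneg hh0
  set y := 1 + Real.log h with hy
  have hy1 : 1 ≤ y := by rw [hy]; linarith
  rw [← sum_filter_add_sum_filter_not _ (fun p => p ≤ ⌊y⌋₊)]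
  have e1 : ∑ p ∈ (2 * h).primeFactors.filter (fun p => p ≤ ⌊y⌋₊), 1 / (p : ℝ) ≤ 1 + Real.log y := by
    have h7 : ((harmonic ⌊y⌋₊ : ℚ) : ℝ) ≤ 1 + Real.log y := harmonic_floor_le_one_add_log y hy1
    refine le_trans ?_ h7
    rw [harmonic_eq_sum_Icc]
    push_cast
    have h8 : ∑ p ∈ (2 * h).primeFactors.filter (fun p => p ≤ ⌊y⌋₊), 1 / (p : ℝ) ≤
        ∑ p ∈ Icc 1 ⌊y⌋₊, 1 / (p : ℝ) := by
      apply sum_le_sum_of_subset_of_nonneg
      · intro p hp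
        rw [mem_filter] at hp
        rw [mem_Icc]
        exact ⟨(Nat.prime_of_mem_primeFactors hp.1).one_le, hp.2⟩
      · intro _ _ _; positivity
    refine h8.trans (le_of_eq (sum_congr rfl fun i _ => one_div _))
  have e2 : ∑ p ∈ (2 * h).primeFactors.filter (fun p => ¬ p ≤ ⌊y⌋₊), 1 / (p : ℝ) ≤ 2 := by
    calc ∑ p ∈ (2 * h).primeFactors.filter (fun p => ¬ p ≤ ⌊y⌋₊), 1 / (p : ℝ)
        ≤ ∑ _p ∈ (2 * h).primeFactors.filter (fun p => ¬ p ≤ ⌊y⌋₊), 1 / y := by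
          apply sum_le_sum
          intro p hp
          rw [mem_filter] at hp
          apply one_div_le_one_div_of_le (by linarith)
          exact ((Nat.floor_lt (by linarith)).1 (not_le.1 hp.2)).le
      _ = (((2 * h).primeFactors.filter (fun p => ¬ p ≤ ⌊y⌋₊)).card : ℝ) * (1 / y) := by
          rw [sum_const, nsmul_eq_mul]
      _ ≤ ((2 * h).primeFactors.card : ℝ) * (1 / y) := by
          apply mul_le_mul_of_nonneg_right _ (by positivity)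
          exact_mod_cast card_le_card (filter_subset _ _)
      _ ≤ (2 * y) * (1 / y) := mul_le_mul_of_nonneg_right (card_T hh) (by positivity)
      _ = 2 := by field_simp
  linarith

end Pool.Agent.E8helper92.TP
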