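import Mathlib

/-!
# Counting pairs of classes on unions of lines (project TP, piece SER)
-/

set_option autoImplicit false

namespace Pool.Agent.E8helper92.TP

open Finset

variable {p : ℕ} [hp : Fact p.Prime]

/-- a line -/
def Ln (p : ℕ) [Fact p.Prime] (a b c : ZMod p) : Finset (ZMod p × ZMod p) :=
  univ.filter (fun r => a * r.1 + b * r.2 + c = 0)

lemma mem_Ln {a b c : ZMod p} {r : ZMod p × ZMod p} : r ∈ Ln p a b c ↔ a * r.1 + b * r.2 + c = 0 := by
  unfold Ln
  rw [mem_filter]
  simp

lemma card_Ln {a b : ZMod p} (c : ZMod p) (h : a ≠ 0 ∨ b ≠ 0) : (Ln p a b c).card = p := by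
  have hu : (univ : Finset (ZMod p)).card = p := by rw [card_univ, ZMod.card]
  rcases h with h | h
  · refine Eq.trans (b := (univ : Finset (ZMod p)).card) ?_ hu
    refine card_nbij' (fun r => r.2) (fun y => (-(b * y + c) / a, y)) ?_ ?_ ?_ ?_
    · intro r _; exact mem_univ _
    · intro y _
      rw [mem_coe, mem_Ln]
      simp only
      rw [mul_div_cancel₀ _ h]
      ring
    · intro r hr
      rw [mem_coe, mem_Ln] at hr
      refine Prod.ext ?_ rfl
      simp only
      rw [div_eq_iff h]
      linear_combination -hr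
    · intro y _; rfl
  · refine Eq.trans (b := (univ : Finset (ZMod p)).card) ?_ hu
    refine card_nbij' (fun r => r.1) (fun x => (x, -(a * x + c) / b)) ?_ ?_ ?_ ?_
    · intro r _; exact mem_univ _
    · intro y _
      rw [mem_coe, mem_Ln]
      simp only
      rw [mul_div_cancel₀ _ h]
      ring
    · intro r hr
      rw [mem_coe, mem_Ln] at hr
      refine Prod.ext rfl ?_
      simp only
      rw [div_eq_iff h]
      linear_combination -hr
    · intro y _; rfl

lemma inter_Ln {a b c a' b' c' : ZMod p} (h : a * b' - a' * b ≠ 0) :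
    (Ln p a b c ∩ Ln p a' b' c').card ≤ 1 := by
  rw [card_le_one]
  intro r hr s hs
  rw [mem_inter, mem_Ln, mem_Ln] at hr hs
  obtain ⟨h1, h2⟩ := hr
  obtain ⟨h3, h4⟩ := hs
  refine Prod.ext ?_ ?_
  · refine mul_left_cancel₀ h ?_
    linear_combination b' * h1 - b * h2 - b' * h3 + b * h4
  · refine mul_left_cancel₀ h ?_
    linear_combination -a' * h1 + a * h2 + a' * h3 - a * h4

lemma inter_par {a b c c' : ZMod p} (h : c ≠ c') : (Ln p a b c ∩ Ln p a b c').card ≤ 1 := by
  have : Ln p a b c ∩ Ln p a b c' = ∅ := by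
    rw [eq_empty_iff_forall_notMem]
    intro r hr
    rw [mem_inter, mem_Ln, mem_Ln] at hr
    apply h
    linear_combination hr.1 - hr.2
  rw [this]
  simp

lemma union_low {α : Type*} [DecidableEq α] (A : ℕ → Finset α) (m k : ℕ)
    (h1 : ∀ i < k, (A i).card = m) (h2 : ∀ i < k, ∀ j < i, (A i ∩ A j).card ≤ 1) :
    k * m ≤ ((range k).biUnion A).card + k * k := by
  induction k with
  | zero => simp
  | succ k ih =>
    have h3 := ih (fun i hi => h1 i (by omega)) (fun i hi => h2 i (by omega))
    rw [range_add_one, biUnion_insert]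
    have h4 := card_union_add_card_inter (A k) ((range k).biUnion A)
    have h5 : (A k ∩ (range k).biUnion A).card ≤ k := by
      rw [inter_biUnion]
      refine card_biUnion_le.trans ?_
      calc ∑ j ∈ range k, (A k ∩ A j).card ≤ ∑ _j ∈ range k, 1 :=
            sum_le_sum fun j hj => h2 k (by omega) j (mem_range.1 hj)
        _ = k := by simp
    have h6 := h1 k (by omega)
    have e1 : (k + 1) * m = k * m + m := by ring
    have e2 : (k + 1) * (k + 1) = k * k + 2 * k + 1 := by ring
    rw [e1, e2]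
    omega

lemma union_up {α : Type*} [DecidableEq α] (A : ℕ → Finset α) (m k : ℕ)
    (h1 : ∀ i < k, (A i).card = m) : ((range k).biUnion A).card ≤ k * m := by
  refine card_biUnion_le.trans ?_
  rw [sum_congr rfl fun i hi => h1 i (mem_range.1 hi)]
  simp

open Classical in
lemma bad_eq (Q : ℕ → ℕ → Prop) (F : Finset (ZMod p × ZMod p))
    (hF : ∀ x y : ℕ, Q x y ↔ ((x : ZMod p), (y : ZMod p)) ∈ F) :
    ((range p ×ˢ range p).filter (fun r => Q r.1 r.2)).card = F.card := by
  have hp0 : NeZero p := ⟨hp.out.ne_zero⟩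
  refine card_nbij' (fun r => ((r.1 : ZMod p), (r.2 : ZMod p))) (fun s => (s.1.val, s.2.val))
    ?_ ?_ ?_ ?_
  · intro r hr
    rw [mem_coe, mem_filter] at hr
    exact (hF _ _).1 hr.2
  · intro s hs
    rw [mem_coe, mem_filter, mem_product, mem_range, mem_range]
    refine ⟨⟨ZMod.val_lt _, ZMod.val_lt _⟩, ?_⟩
    rw [hF]
    simp only [ZMod.natCast_zmod_val]
    exact hs
  · intro r hr
    rw [mem_coe, mem_filter, mem_product, mem_range, mem_range] at hr
    refine Prod.ext ?_ ?_
    · exact ZMod.val_cast_of_lt hr.1.1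
    · exact ZMod.val_cast_of_lt hr.1.2
  · intro s _
    simp only [ZMod.natCast_zmod_val]

end Pool.Agent.E8helper92.TP
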