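import Pool.Agent.E8helper92.TP.Cnt
import Pool.Agent.E8helper16.TP.StmA

/-!
# The two systems (project TP, piece SER)
-/

set_option autoImplicit false

namespace Pool.Agent.E8helper92.TP

open Finset
open Pool.Agent.E8helper16.TP (bad QA QT loc)

section gen

variable {p : ℕ} [hp : Fact p.Prime] (a b c : ℕ → ZMod p)

/-- union of six lines -/
def FF : Finset (ZMod p × ZMod p) := (range 6).biUnion (fun i => Ln p (a i) (b i) (c i))

lemma FF_up (h : ∀ i < 6, a i ≠ 0 ∨ b i ≠ 0) : (FF a b c).card ≤ 6 * p :=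
  union_up _ p 6 fun i hi => card_Ln _ (h i hi)

lemma FF_low (h : ∀ i < 6, a i ≠ 0 ∨ b i ≠ 0)
    (h2 : ∀ i < 6, ∀ j < i, a i * b j - a j * b i ≠ 0 ∨ (a i = a j ∧ b i = b j ∧ c i ≠ c j)) :
    6 * p ≤ (FF a b c).card + 36 := by
  refine union_low _ p 6 (fun i hi => card_Ln _ (h i hi)) ?_
  intro i hi j hj
  rcases h2 i hi j hj with h3 | ⟨h3, h4, h5⟩
  · exact inter_Ln h3
  · rw [h3, h4]
    exact inter_par h5

lemma FF_low2 (h : ∀ i < 6, a i ≠ 0 ∨ b i ≠ 0) (h2 : a 2 * b 0 - a 0 * b 2 ≠ 0) :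
    2 * p ≤ (FF a b c).card + 4 := by
  have h3 := union_low (fun i => Ln p (a (2 * i)) (b (2 * i)) (c (2 * i))) p 2
    (fun i hi => card_Ln _ (h _ (by omega))) (by
      intro i hi j hj
      have hi1 : i = 1 := by omega
      have hj0 : j = 0 := by omega
      subst hi1 hj0
      exact inter_Ln h2)
  refine h3.trans (Nat.add_le_add_right (card_le_card ?_) _)
  intro r hr
  rw [mem_biUnion] at hr
  obtain ⟨i, hi, hr⟩ := hr
  rw [mem_range] at hi
  exact mem_biUnion.2 ⟨2 * i, mem_range.2 (by omega), hr⟩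

end gen

lemma mem_FF {p : ℕ} [hp : Fact p.Prime] {a b c : ℕ → ZMod p} {r : ZMod p × ZMod p} :
    r ∈ FF a b c ↔ ∃ i < 6, a i * r.1 + b i * r.2 + c i = 0 := by
  unfold FF
  rw [mem_biUnion]
  simp only [mem_range, mem_Ln]

lemma ex6 {P : ℕ → Prop} : (∃ i < 6, P i) ↔ P 0 ∨ P 1 ∨ P 2 ∨ P 3 ∨ P 4 ∨ P 5 := by
  constructor
  · rintro ⟨i, hi, h⟩
    interval_cases i <;> simp_all
  · rintro (h | h | h | h | h | h)
    exacts [⟨0, by norm_num, h⟩, ⟨1, by norm_num, h⟩, ⟨2, by norm_num, h⟩, ⟨3, by norm_num, h⟩,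
      ⟨4, by norm_num, h⟩, ⟨5, by norm_num, h⟩]

/-- coefficients -/
def cf {R : Type*} (r0 r1 r2 r3 r4 r5 : R) : ℕ → R
  | 0 => r0
  | 1 => r1
  | 2 => r2
  | 3 => r3
  | 4 => r4
  | _ => r5

lemma bad_QA (h p : ℕ) (hp : p.Prime) : bad (QA h) p ≤ 6 * p ∧ 2 * p ≤ bad (QA h) p + 4 ∧
    (¬ p ∣ 2 * h → 6 * p ≤ bad (QA h) p + 36) := by
  have : Fact p.Prime := ⟨hp⟩
  set a : ℕ → ZMod p := cf 1 1 1 1 1 1 with ha
  set b : ℕ → ZMod p := cf 0 0 1 1 2 2 with hb
  set c : ℕ → ZMod p := cf 0 h 0 h 0 h with hc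
  have h0 : ∀ i < 6, a i ≠ 0 ∨ b i ≠ 0 := by
    intro i hi
    left
    rw [ha]
    interval_cases i <;> exact one_ne_zero
  have he : bad (QA h) p = (FF a b c).card := by
    refine bad_eq (QA h p) (FF a b c) ?_
    intro x y
    rw [mem_FF, ex6]
    unfold QA
    simp only [ha, hb, hc, cf, ← ZMod.natCast_eq_zero_iff]
    push_cast
    simp only [one_mul, zero_mul, add_zero]
  rw [he]
  refine ⟨FF_up a b c h0, FF_low2 a b c h0 ?_, ?_⟩
  · simp only [ha, hb, cf]
    simp
  · intro hnd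
    refine FF_low a b c h0 ?_
    have h2 : (2 : ZMod p) ≠ 0 := by
      intro h3
      apply hnd
      have h4 : ((2 : ℕ) : ZMod p) = 0 := by exact_mod_cast h3
      exact Dvd.dvd.mul_right ((ZMod.natCast_eq_zero_iff _ _).1 h4) _
    have hh : (h : ZMod p) ≠ 0 := by
      intro h3
      apply hnd
      exact Dvd.dvd.mul_left ((ZMod.natCast_eq_zero_iff _ _).1 h3) _
    intro i hi j hj
    interval_cases i <;> interval_cases j <;> simp only [ha, hb, hc, cf]
    · right; exact ⟨by trivial, by trivial, hh⟩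
    · left; simp
    · left; simp
    · left; simp
    · left; simp
    · right; exact ⟨by trivial, by trivial, hh⟩
    · left; simpa using h2
    · left; simpa using h2
    · left; norm_num
    · left; norm_num
    · left; simpa using h2
    · left; simpa using h2
    · left; norm_num
    · left; norm_num
    · right; exact ⟨by trivial, by trivial, hh⟩

lemma bad_QT (h n p : ℕ) (hp : p.Prime) : bad (QT h n) p ≤ 6 * p ∧ 2 * p ≤ bad (QT h n) p + 4 ∧
    (¬ p ∣ 2 * h → 6 * p ≤ bad (QT h n) p + 36) := by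
  have : Fact p.Prime := ⟨hp⟩
  set a : ℕ → ZMod p := cf 1 1 0 0 (-1) (-1) with ha
  set b : ℕ → ZMod p := cf 0 0 1 1 (-1) (-1) with hb
  set c : ℕ → ZMod p := cf 0 h 0 h n (n + h) with hc
  have h0 : ∀ i < 6, a i ≠ 0 ∨ b i ≠ 0 := by
    intro i hi
    rw [ha, hb]
    interval_cases i <;> simp [cf]
  have he : bad (QT h n) p = (FF a b c).card := by
    refine bad_eq (QT h n p) (FF a b c) ?_
    intro x y
    rw [mem_FF, ex6]
    unfold QT
    simp only [ha, hb, hc, cf, ← ZMod.natCast_eq_zero_iff, ← ZMod.intCast_zmod_eq_zero_iff_dvd]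
    push_cast
    simp only [one_mul, zero_mul, add_zero, zero_add, neg_mul]
    have e1 : (n : ZMod p) - x - y = -x + -y + n := by ring
    have e2 : (n : ZMod p) - x - y + h = -x + -y + (n + h) := by ring
    rw [e2, e1]
  rw [he]
  refine ⟨FF_up a b c h0, FF_low2 a b c h0 ?_, ?_⟩
  · simp only [ha, hb, cf]
    simp
  · intro hnd
    refine FF_low a b c h0 ?_
    have hh : (h : ZMod p) ≠ 0 := by
      intro h3
      apply hnd
      exact Dvd.dvd.mul_left ((ZMod.natCast_eq_zero_iff _ _).1 h3) _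
    intro i hi j hj
    interval_cases i <;> interval_cases j <;> simp only [ha, hb, hc, cf]
    · right; exact ⟨by trivial, by trivial, hh⟩
    · left; simp
    · left; simp
    · left; simp
    · left; simp
    · right; exact ⟨by trivial, by trivial, hh⟩
    · left; simp
    · left; simp
    · left; simp
    · left; simp
    · left; simp
    · left; simp
    · left; simp
    · left; simp
    · right
      refine ⟨by trivial, by trivial, ?_⟩
      intro h3
      apply hh
      linear_combination h3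

end Pool.Agent.E8helper92.TP
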