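import Pool.Agent.E8helper92.TP.Ana
import Pool.Agent.E8helper92.TP.Sys

/-!
# The singular series and its tail (project TP, piece SER)
-/

set_option autoImplicit false

namespace Pool.Agent.E8helper92.TP

open Finset
open Pool.Agent.E8helper16.TP (bad QA QT loc S_SER)
open Pool.Agent.H373R2.T7 (pz mem_pz)

lemma prod_le {h : ℕ} (hh : 1 ≤ h) {B : ℕ → ℕ} (hB : Sys h B) (z : ℕ) :
    ∏ p ∈ pz z, lf B p ≤ Real.exp 108 * (1 + Real.log h) ^ 4 := by
  have hh0 : (1 : ℝ) ≤ h := by exact_mod_cast hh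
  have h6 : 0 ≤ Real.log h := Real.log_nonneg hh0
  have h1 : ∏ p ∈ pz z, lf B p ≤ ∏ p ∈ pz z,
      Real.exp (48 * (1 / (p : ℝ) ^ 2) + (if p ∣ 2 * h then 4 * (1 / (p : ℝ)) else 0)) :=
    prod_le_prod (fun p hp => lf_nonneg hB (mem_pz.1 hp).2) (fun p hp => lf_up hB (mem_pz.1 hp).2)
  refine h1.trans ?_
  rw [← Real.exp_sum]
  have e : Real.exp 108 * (1 + Real.log h) ^ 4 = Real.exp (108 + 4 * Real.log (1 + Real.log h)) := by
    rw [Real.exp_add]
    congr 1
    have : (4 : ℝ) * Real.log (1 + Real.log h) = ((4 : ℕ) : ℝ) * Real.log (1 + Real.log h) := by norm_num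
    rw [this, Real.exp_nat_mul, Real.exp_log (by linarith)]
  rw [e]
  apply Real.exp_le_exp.2
  rw [sum_add_distrib, ← mul_sum, ← sum_filter, ← mul_sum]
  have s1 : ∑ p ∈ pz z, 1 / (p : ℝ) ^ 2 ≤ 2 := by
    refine le_trans ?_ (sum_inv_sq z)
    apply sum_le_sum_of_subset_of_nonneg
    · intro p hp
      rw [mem_Icc]
      exact ⟨(mem_pz.1 hp).2.one_le, (mem_pz.1 hp).1⟩
    · intro _ _ _; positivity
  have s2 : ∑ p ∈ (pz z).filter (fun p => p ∣ 2 * h), 1 / (p : ℝ) ≤ 3 + Real.log (1 + Real.log h) := by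
    refine le_trans ?_ (sum_T hh)
    apply sum_le_sum_of_subset_of_nonneg
    · intro p hp
      rw [mem_filter] at hp
      exact Nat.mem_primeFactors.2 ⟨(mem_pz.1 hp.1).2, hp.2, by omega⟩
    · intro _ _ _; positivity
  linarith

lemma tail {h : ℕ} (hh : 1 ≤ h) {B : ℕ → ℕ} (hB : Sys h B) {z z' : ℕ}
    (hz : 7104 * (1 + Real.log h) ≤ z) (hzz : z ≤ z') :
    |∏ p ∈ pz z, lf B p - ∏ p ∈ pz z', lf B p| ≤ Real.exp 108 * 14208 * (1 + Real.log h) ^ 5 / z := by
  have hh0 : (1 : ℝ) ≤ h := by exact_mod_cast hh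
  have h6 : 0 ≤ Real.log h := Real.log_nonneg hh0
  set y := 1 + Real.log h with hy
  have hy1 : 1 ≤ y := by rw [hy]; linarith
  have hz0 : (0 : ℝ) < z := by linarith
  have hz0' : 0 < z := by exact_mod_cast hz0
  set S := (pz z').filter (fun p => ¬ p ≤ z) with hS
  have e1 : ∏ p ∈ pz z', lf B p = (∏ p ∈ pz z, lf B p) * ∏ p ∈ S, lf B p := by
    rw [← prod_filter_mul_prod_filter_not (pz z') (fun p => p ≤ z)]
    congr 1
    apply prod_congr _ (fun _ _ => rfl)
    ext p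
    rw [mem_filter, mem_pz, mem_pz]
    constructor
    · rintro ⟨⟨_, h1⟩, h2⟩; exact ⟨h2, h1⟩
    · rintro ⟨h1, h2⟩; exact ⟨⟨h1.trans hzz, h2⟩, h1⟩
  have hsum : ∑ p ∈ S, |lf B p - 1| ≤ 7104 * y / z := by
    have h1 : ∑ p ∈ S, |lf B p - 1| ≤
        ∑ p ∈ S, (4288 * (1 / (p : ℝ) ^ 2) + (if p ∣ 2 * h then 1408 * (1 / (p : ℝ)) else 0)) := by
      apply sum_le_sum
      intro p hp
      rw [hS, mem_filter, mem_pz] at hp
      exact lf_abs hB hp.1.2
    refine h1.trans ?_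
    rw [sum_add_distrib, ← mul_sum, ← sum_filter, ← mul_sum]
    have s1 : ∑ p ∈ S, 1 / (p : ℝ) ^ 2 ≤ 1 / (z : ℝ) := by
      refine le_trans ?_ (tail_sq z z' hz0' hzz)
      apply sum_le_sum_of_subset_of_nonneg
      · intro p hp
        rw [hS, mem_filter, mem_pz] at hp
        rw [mem_Ioc]
        omega
      · intro _ _ _; positivity
    have s2 : ∑ p ∈ S.filter (fun p => p ∣ 2 * h), 1 / (p : ℝ) ≤ 2 * y / z := by
      calc ∑ p ∈ S.filter (fun p => p ∣ 2 * h), 1 / (p : ℝ)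
          ≤ ∑ _p ∈ S.filter (fun p => p ∣ 2 * h), 1 / (z : ℝ) := by
            apply sum_le_sum
            intro p hp
            rw [mem_filter, hS, mem_filter] at hp
            apply one_div_le_one_div_of_le hz0
            exact_mod_cast (by omega : z ≤ p)
        _ = ((S.filter (fun p => p ∣ 2 * h)).card : ℝ) * (1 / z) := by rw [sum_const, nsmul_eq_mul]
        _ ≤ ((2 * h).primeFactors.card : ℝ) * (1 / z) := by
            apply mul_le_mul_of_nonneg_right _ (by positivity)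
            refine Nat.cast_le.2 (card_le_card ?_)
            intro p hp
            rw [mem_filter, hS, mem_filter, mem_pz] at hp
            exact Nat.mem_primeFactors.2 ⟨hp.1.1.2, hp.2, by omega⟩
        _ ≤ (2 * y) * (1 / z) := mul_le_mul_of_nonneg_right (card_T hh) (by positivity)
        _ = 2 * y / z := by ring
    have s3 : 4288 * (1 / (z : ℝ)) ≤ 4288 * y / z := by
      rw [mul_one_div]
      apply div_le_div_of_nonneg_right _ hz0.le
      linarith
    calc 4288 * ∑ p ∈ S, 1 / (p : ℝ) ^ 2 + 1408 * ∑ p ∈ S.filter (fun p => p ∣ 2 * h), 1 / (p : ℝ)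
        ≤ 4288 * (1 / z) + 1408 * (2 * y / z) := by linarith
      _ ≤ 4288 * y / z + 1408 * (2 * y / z) := by linarith
      _ = 7104 * y / z := by ring
  have hR : |∏ p ∈ S, lf B p - 1| ≤ 2 * (7104 * y / z) := by
    have h1 := norm_prod_one_add_sub_one_le S (fun p => lf B p - 1)
    have e2 : ∏ p ∈ S, (1 + (lf B p - 1)) = ∏ p ∈ S, lf B p := prod_congr rfl fun p _ => by ring
    rw [e2, Real.norm_eq_abs] at h1
    have e3 : ∑ p ∈ S, ‖lf B p - 1‖ = ∑ p ∈ S, |lf B p - 1| := sum_congr rfl fun p _ => Real.norm_eq_abs _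
    rw [e3] at h1
    have hx0 : 0 ≤ ∑ p ∈ S, |lf B p - 1| := sum_nonneg fun p _ => abs_nonneg _
    have hx1 : ∑ p ∈ S, |lf B p - 1| ≤ 1 := hsum.trans (by rw [div_le_one hz0]; exact hz)
    have h2 := Real.abs_exp_sub_one_le (x := ∑ p ∈ S, |lf B p - 1|) (by rw [abs_of_nonneg hx0]; exact hx1)
    rw [abs_of_nonneg hx0] at h2
    have h3 := (le_abs_self _).trans h2
    linarith
  have hP := prod_le hh hB z
  have hP0 : 0 ≤ ∏ p ∈ pz z, lf B p := prod_nonneg fun p hp => lf_nonneg hB (mem_pz.1 hp).2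
  rw [e1]
  have e4 : ∏ p ∈ pz z, lf B p - (∏ p ∈ pz z, lf B p) * ∏ p ∈ S, lf B p =
      -((∏ p ∈ pz z, lf B p) * (∏ p ∈ S, lf B p - 1)) := by ring
  rw [e4, abs_neg, abs_mul, abs_of_nonneg hP0]
  calc (∏ p ∈ pz z, lf B p) * |∏ p ∈ S, lf B p - 1|
      ≤ (Real.exp 108 * y ^ 4) * (2 * (7104 * y / z)) :=
        mul_le_mul hP hR (abs_nonneg _) (by positivity)
    _ = Real.exp 108 * 14208 * y ^ 5 / z := by ring

lemma hasProd {h : ℕ} (hh : 1 ≤ h) {B : ℕ → ℕ} (hB : Sys h B) :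
    ∃ s : ℝ, HasProd (fun p : Nat.Primes => lf B p) s := by
  have hs : Summable (fun p : Nat.Primes => lf B p - 1) := by
    have h1 : Summable (fun p : Nat.Primes => 4288 * (1 / ((p : ℕ) : ℝ) ^ 2)) := by
      apply Summable.mul_left
      exact (Real.summable_one_div_nat_pow.2 (by norm_num : 1 < 2)).comp_injective
        (Subtype.val_injective (p := Nat.Prime))
    have h2 : Summable (fun p : Nat.Primes => if (p : ℕ) ∣ 2 * h then 1408 * (1 / ((p : ℕ) : ℝ)) else 0) := by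
      refine summable_of_ne_finset_zero (s := ((2 * h).primeFactors.subtype Nat.Prime : Finset Nat.Primes)) ?_
      intro p hp
      refine if_neg ?_
      intro hd
      apply hp
      exact Finset.mem_subtype.2 (Nat.mem_primeFactors.2 ⟨p.2, hd, by omega⟩)
    refine Summable.of_norm_bounded (h1.add h2) ?_
    intro p
    rw [Real.norm_eq_abs]
    exact lf_abs hB p.2
  have h3 := Real.multipliable_one_add_of_summable hs
  have e : (fun p : Nat.Primes => 1 + (lf B p - 1)) = fun p : Nat.Primes => lf B p := by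
    funext p
    ring
  rw [e] at h3
  exact ⟨_, h3.hasProd⟩

lemma lim {f : ℕ → ℝ} {s : ℝ} (hs : HasProd (fun p : Nat.Primes => f p) s) :
    Filter.Tendsto (fun z => ∏ p ∈ pz z, f p) Filter.atTop (nhds s) := by
  have h1 : Filter.Tendsto (fun z : ℕ => ((pz z).subtype Nat.Prime : Finset Nat.Primes))
      Filter.atTop Filter.atTop := by
    apply Filter.tendsto_atTop_finset_of_monotone
    · intro a b hab p hp
      have h3 := mem_pz.1 (Finset.mem_subtype.1 hp)
      exact Finset.mem_subtype.2 (mem_pz.2 ⟨h3.1.trans hab, h3.2⟩)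
    · intro p
      exact ⟨p, Finset.mem_subtype.2 (mem_pz.2 ⟨le_rfl, p.2⟩)⟩
  have h2 := Filter.Tendsto.comp hs h1
  refine h2.congr ?_
  intro z
  exact prod_subtype_of_mem f (fun p hp => (mem_pz.1 hp).2)

lemma ser {h : ℕ} (hh : 1 ≤ h) {B : ℕ → ℕ} (hB : Sys h B) :
    ∃ s : ℝ, HasProd (fun p : Nat.Primes => lf B p) s ∧ 0 ≤ s ∧
      ∀ z : ℕ, 7104 * (1 + Real.log h) ≤ z →
        |∏ p ∈ pz z, lf B p - s| ≤ Real.exp 108 * 14208 * (1 + Real.log h) ^ 5 / z := by
  obtain ⟨s, hs⟩ := hasProd hh hB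
  have hl := lim (f := lf B) hs
  refine ⟨s, hs, ?_, ?_⟩
  · exact ge_of_tendsto' hl fun z => prod_nonneg fun p hp => lf_nonneg hB (mem_pz.1 hp).2
  · intro z hz
    have h1 : Filter.Tendsto (fun z' => |∏ p ∈ pz z, lf B p - ∏ p ∈ pz z', lf B p|) Filter.atTop
        (nhds |∏ p ∈ pz z, lf B p - s|) := (hl.const_sub _).abs
    apply le_of_tendsto h1
    filter_upwards [Filter.eventually_ge_atTop z] with z' hz'
    exact tail hh hB hz hz'

lemma bad_sq (Q : ℕ → ℕ → ℕ → Prop) (p : ℕ) : bad Q p ≤ p ^ 2 := by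
  classical
  unfold bad
  refine (card_filter_le _ _).trans ?_
  rw [card_product, card_range, sq]

theorem t_SER : S_SER := by
  refine ⟨Real.exp 108 * 14208, by positivity, ?_⟩
  intro h hh Q hQ
  have hB : Sys h (bad Q) := by
    rcases hQ with rfl | ⟨n, rfl⟩
    · exact ⟨fun p hp => (bad_QA h p hp).1, fun p => bad_sq _ p, fun p hp => (bad_QA h p hp).2.1,
        fun p hp => (bad_QA h p hp).2.2⟩
    · exact ⟨fun p hp => (bad_QT h n p hp).1, fun p => bad_sq _ p, fun p hp => (bad_QT h n p hp).2.1,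
        fun p hp => (bad_QT h n p hp).2.2⟩
  obtain ⟨s, h1, h2, h3⟩ := ser hh hB
  refine ⟨s, h1, h2, ?_⟩
  intro z hz
  refine h3 z (le_trans ?_ hz)
  have hh0 : (1 : ℝ) ≤ h := by exact_mod_cast hh
  have h6 : 0 ≤ Real.log h := Real.log_nonneg hh0
  have h7 : (1 : ℝ) ≤ Real.exp 108 := Real.one_le_exp (by norm_num)
  apply mul_le_mul_of_nonneg_right _ (by linarith)
  linarith

end Pool.Agent.E8helper92.TP
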